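import Pool.Agent.SGN.Defect2

/-!
# MP_16712d_co: the distance of the maximal size of a signed sumset to the upper bound c(h,m)
-/

set_option autoImplicit false

namespace Pool.Agent.Results.MP_16712d_co.Defect

open Pool.Agent.SGN

/-- For all `m ≥ 2`, `h ≥ 1` and `n` with `c ≤ n` and `4 (2m)^m n ≤ h^m`, where `c = c(h,m)`:
`c² ≤ (32 m²)^m n (c - ν±(Z_n, m, h))`. -/
theorem result : ∀ n m h : ℕ, 2 ≤ m → 1 ≤ h → cc h m ≤ n → 4 * (2 * m) ^ m * n ≤ h ^ m →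
    (cc h m : ℤ) ^ 2 ≤ (32 * (m : ℤ) ^ 2) ^ m * n * ((cc h m : ℤ) - nuPM n m h) := by
  intro n m h hm hh hc hn
  have h1 := defect_ge hm hh hc hn
  have h2 : (cc h m : ℤ) ^ 2 + (32 * (m : ℤ) ^ 2) ^ m * n * nuPM n m h ≤
      (32 * (m : ℤ) ^ 2) ^ m * n * cc h m := by exact_mod_cast h1
  rw [mul_sub]
  linarith

end Pool.Agent.Results.MP_16712d_co.Defect
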