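import Pool.Agent.SGN.Dense

/-!
# MP_16712d_co: the signed sumsets of m-element subsets of a cyclic group can be the whole group
as soon as n is at most half of c(h/36, m)
-/

set_option autoImplicit false

namespace Pool.Agent.Results.MP_16712d_co.DenseRange

open Pool.Agent.SGN

/-- For all `1 ≤ m ≤ n` and `h ≥ 36` with `2n ≤ c(⌊h/36⌋, m)`: `ν±(Z_n, m, h) = n`. -/
theorem result : ∀ n m h : ℕ, 1 ≤ m → m ≤ n → 36 ≤ h → 2 * n ≤ cc (h / 36) m →
    nuPM n m h = n := by
  intro n m h hm hmn hh hc
  exact dense hm hmn hh hc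

end Pool.Agent.Results.MP_16712d_co.DenseRange
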