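import Pool.Agent.SGN.Low

/-!
# MP_16712d_co: the signed sumsets of m-element subsets of a cyclic group attain the upper bound
asymptotically when c(h,m) = o(n)
-/

set_option autoImplicit false

namespace Pool.Agent.Results.MP_16712d_co.SparseRange

open Pool.Agent.SGN

/-- For all `2 ≤ m ≤ n` and `h ≥ 2`, with `c = c(h,m)`:
`c n / (n + 45 c) ≤ ν±(Z_n, m, h)`. -/
theorem result : ∀ n m h : ℕ, 2 ≤ m → m ≤ n → 2 ≤ h →
    cc h m * n ≤ (n + 45 * cc h m) * nuPM n m h := by
  intro n m h hm hmn hh
  exact sharp' hm hmn hh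

end Pool.Agent.Results.MP_16712d_co.SparseRange
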