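import Pool.Agent.SGN.Final

/-!
# MP_16712d_co: the maximal size of the h-fold signed sumsets of m-element subsets of a cyclic
group, up to a factor of 18, for all parameters
-/

set_option autoImplicit false

namespace Pool.Agent.Results.MP_16712d_co.WithinFactor

open Pool.Agent.SGN

/-- For all `1 ≤ m ≤ n` and `h ≥ 1`:
`min {n, c(h,m)} / 18 ≤ ν±(Z_n, m, h) ≤ min {n, c(h,m)}`. -/
theorem result : ∀ n m h : ℕ, 1 ≤ m → m ≤ n → 1 ≤ h →
    min n (cc h m) ≤ 18 * nuPM n m h ∧ nuPM n m h ≤ min n (cc h m) := by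
  intro n m h hm hmn hh
  exact ⟨lower hm hmn hh, nuPM_le (by omega) hmn hh⟩

end Pool.Agent.Results.MP_16712d_co.WithinFactor
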